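import Pool.Agent.R269.SMFinal

/-!
The space of order `n` is not minimal.
-/

set_option autoImplicit false

open Pool.Agent.R269.SM

namespace Pool.Agent.Results.MP_4a3daa_an.NotMinimal

/-- For every `n ≥ 1` the space of order `n` exists, and (any version of) it is not minimal. -/
theorem result : ∀ n : ℕ, 1 ≤ n →
    (∃ (X : Type) (_ : NormedAddCommGroup X) (_ : NormedSpace ℝ X) (_ : CompleteSpace X)
      (u : ℕ → X), IsXn n X u) ∧
    ∀ (X : Type) [NormedAddCommGroup X] [NormedSpace ℝ X] [CompleteSpace X] (u : ℕ → X),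
      IsXn n X u → ¬ MinimalSpace X := by
  intro n hn
  obtain ⟨k, rfl⟩ : ∃ k, n = k + 1 := ⟨n - 1, by omega⟩
  exact ⟨⟨_, inferInstance, inferInstance, inferInstance, _, exists_Xn (k + 1)⟩,
    fun X _ _ _ u h => not_minimal h⟩

end Pool.Agent.Results.MP_4a3daa_an.NotMinimal
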